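import Mathlib
import Pool.Agent.Lib.MP_e52354_nt.Ambient
import Pool.Agent.Lib.MP_e52354_nt.Local

/-!
Weighted homogeneous polynomials in `t` (of weight `d`) and `x_0, ..., x_n` (of weight one), and
their values at `t = H (x)` for a form `H` of degree `d`.
-/

namespace Pool.Agent.Lib.MP_44a246_ntQ

open Pool.Agent.Lib.MP_e52354_nt
open MvPolynomial

/-- the weights of the variables `t, x_0, ..., x_n` -/
def wt (n d : ℕ) : Fin (n + 1) → ℕ := Fin.cons d fun _ => 1

/-- the form with coefficients `a` as a polynomial -/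
noncomputable def formOf {L : Type*} [Field L] {n : ℕ} (d : ℕ) (a : (Fin n →₀ ℕ) → L) :
    MvPolynomial (Fin n) L := ∑ I ∈ expo (Fin n) d, monomial I (a I)

/-- the form `f (H (x), x)` -/
noncomputable def subst {k L : Type*} [Field k] [Field L] [Algebra k L] {n : ℕ} (d : ℕ)
    (a : (Fin n →₀ ℕ) → L) (f : MvPolynomial (Fin (n + 1)) k) : MvPolynomial (Fin n) L :=
  aeval (Fin.cons (formOf d a) (fun j => X j) : Fin (n + 1) → MvPolynomial (Fin n) L) f

/-- the coefficients of the form `f (H (x), x)` -/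
noncomputable def aW {k L : Type*} [Field k] [Field L] [Algebra k L] {n : ℕ} {ι : Type*} (d : ℕ)
    (a : (Fin n →₀ ℕ) → L) (f : ι → MvPolynomial (Fin (n + 1)) k) : ι → (Fin n →₀ ℕ) → L :=
  fun i J => (subst d a (f i)).coeff J

theorem formOf_hom {L : Type*} [Field L] {n : ℕ} (d : ℕ) (a : (Fin n →₀ ℕ) → L) :
    (formOf d a).IsHomogeneous d := by
  refine IsHomogeneous.sum _ _ _ fun I hI => isHomogeneous_monomial _ ?_
  exact mem_expo.1 hI

theorem aeval_formOf {L M : Type*} [Field L] [Field M] [Algebra L M] {n : ℕ} (d : ℕ)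
    (a : (Fin n →₀ ℕ) → L) (γ : Fin n → M) :
    aeval γ (formOf d a) = Fval d (fun I => algebraMap L M (a I)) γ := by
  unfold formOf Fval mon
  rw [map_sum]
  refine Finset.sum_congr rfl fun I _ => ?_
  rw [aeval_monomial, Finsupp.prod_fintype _ _ (fun i => pow_zero _)]

/-- scaling -/
theorem aeval_scaleW {k B : Type*} [Field k] [CommRing B] [Algebra k B] {n d e : ℕ}
    {f : MvPolynomial (Fin (n + 1)) k} (hf : f.IsWeightedHomogeneous (wt n d) e) (c v : B)
    (x : Fin n → B) :
    aeval (Fin.cons (c ^ d * v) (fun j => c * x j) : Fin (n + 1) → B) f =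
      c ^ e * aeval (Fin.cons v x : Fin (n + 1) → B) f := by
  rw [aeval_def, aeval_def, eval₂_eq', eval₂_eq', Finset.mul_sum]
  refine Finset.sum_congr rfl fun I hI => ?_
  have h1 := hf (mem_support_iff.1 hI)
  rw [Finsupp.weight_apply, Finsupp.sum_fintype _ _ (by simp), Fin.sum_univ_succ] at h1
  simp only [wt, Fin.cons_zero, Fin.cons_succ, smul_eq_mul, mul_one] at h1
  rw [Fin.prod_univ_succ, Fin.prod_univ_succ]
  simp only [Fin.cons_zero, Fin.cons_succ, mul_pow, Finset.prod_mul_distrib,
    Finset.prod_pow_eq_pow_sum]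
  rw [← h1, pow_add, ← pow_mul, mul_comm d (I 0)]
  ring

theorem subst_hom {k L : Type*} [Field k] [Field L] [Algebra k L] {n d e : ℕ}
    {a : (Fin n →₀ ℕ) → L} {f : MvPolynomial (Fin (n + 1)) k}
    (hf : f.IsWeightedHomogeneous (wt n d) e) : (subst d a f).IsHomogeneous e := by
  unfold subst
  rw [aeval_def, eval₂_eq']
  refine IsHomogeneous.sum _ _ _ fun I hI => ?_
  have h1 := hf (mem_support_iff.1 hI)
  rw [Finsupp.weight_apply, Finsupp.sum_fintype _ _ (by simp), Fin.sum_univ_succ] at h1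
  simp only [wt, Fin.cons_zero, Fin.cons_succ, smul_eq_mul, mul_one] at h1
  rw [Fin.prod_univ_succ]
  simp only [Fin.cons_zero, Fin.cons_succ]
  have h2 : (formOf d a ^ I 0).IsHomogeneous (I 0 * d) := by
    have := (formOf_hom d a).pow (I 0)
    rwa [mul_comm] at this
  have h3 : (∏ j : Fin n, (X j : MvPolynomial (Fin n) L) ^ I j.succ).IsHomogeneous
      (∑ j : Fin n, I j.succ) := by
    refine IsHomogeneous.prod _ _ _ fun j _ => ?_
    have := (isHomogeneous_X L j).pow (I j.succ)
    rwa [one_mul] at this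
  have h4 : (algebraMap k (MvPolynomial (Fin n) L) (f.coeff I)).IsHomogeneous 0 := by
    rw [IsScalarTower.algebraMap_apply k L (MvPolynomial (Fin n) L)]
    exact isHomogeneous_C _ _
  have h5 := h4.mul (h2.mul h3)
  rw [zero_add, h1] at h5
  exact h5

/-- the value of a homogeneous polynomial -/
theorem aeval_hom_eq {L M : Type*} [Field L] [Field M] [Algebra L M] {n e : ℕ}
    {P : MvPolynomial (Fin n) L} (hP : P.IsHomogeneous e) (γ : Fin n → M) :
    aeval γ P = Fval e (fun I => algebraMap L M (P.coeff I)) γ := by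
  rw [aeval_def, eval₂_eq']
  unfold Fval mon
  apply Finset.sum_subset
  · intro I hI
    rw [mem_expo]
    have h1 := hP (mem_support_iff.mp hI)
    rw [← h1, Finsupp.degree_eq_weight_one]
    rfl
  · intro I _ hI
    rw [notMem_support_iff.mp hI, map_zero, zero_mul]

/-- the value of the form `f (H (x), x)` -/
theorem aeval_subst {k L M : Type*} [Field k] [Field L] [Algebra k L] [Field M] [Algebra L M]
    [Algebra k M] [IsScalarTower k L M] {n : ℕ} (d : ℕ) (a : (Fin n →₀ ℕ) → L)
    (f : MvPolynomial (Fin (n + 1)) k) (γ : Fin n → M) :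
    aeval γ (subst d a f) =
      aeval (Fin.cons (Fval d (fun I => algebraMap L M (a I)) γ) γ : Fin (n + 1) → M) f := by
  unfold subst
  have h1 : (aeval (Fin.cons (Fval d (fun I => algebraMap L M (a I)) γ) γ :
      Fin (n + 1) → M) : MvPolynomial (Fin (n + 1)) k →ₐ[k] M) =
      ((aeval γ : MvPolynomial (Fin n) L →ₐ[L] M).restrictScalars k).comp
        (aeval (Fin.cons (formOf d a) (fun j => X j) : Fin (n + 1) → MvPolynomial (Fin n) L)) := by
    ext i
    refine Fin.cases ?_ (fun i => ?_) i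
    · simp only [aeval_X, Fin.cons_zero, AlgHom.comp_apply, AlgHom.restrictScalars_apply]
      exact (aeval_formOf d a γ).symm
    · simp only [aeval_X, Fin.cons_succ, AlgHom.comp_apply, AlgHom.restrictScalars_apply]
  rw [h1]
  rfl

/-- the value of the form with the coefficients `aW` -/
theorem Fval_aW {k L M : Type*} [Field k] [Field L] [Algebra k L] [Field M] [Algebra L M]
    [Algebra k M] [IsScalarTower k L M] {n d : ℕ} {ι : Type*} {e : ι → ℕ}
    {f : ι → MvPolynomial (Fin (n + 1)) k} (hf : ∀ i, (f i).IsWeightedHomogeneous (wt n d) (e i))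
    (a : (Fin n →₀ ℕ) → L) (γ : Fin n → M) (i : ι) :
    Fval (e i) (fun J => algebraMap L M (aW d a f i J)) γ =
      aeval (Fin.cons (Fval d (fun I => algebraMap L M (a I)) γ) γ : Fin (n + 1) → M) (f i) := by
  rw [← aeval_subst, aeval_hom_eq (subst_hom (hf i))]
  rfl

/-- the same over one field -/
theorem Fval_aW' {k L : Type*} [Field k] [Field L] [Algebra k L] {n d : ℕ} {ι : Type*} {e : ι → ℕ}
    {f : ι → MvPolynomial (Fin (n + 1)) k} (hf : ∀ i, (f i).IsWeightedHomogeneous (wt n d) (e i))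
    (a : (Fin n →₀ ℕ) → L) (γ : Fin n → L) (i : ι) :
    Fval (e i) (aW d a f i) γ = aeval (Fin.cons (Fval d a γ) γ : Fin (n + 1) → L) (f i) :=
  Fval_aW (M := L) hf a γ i

/-- functoriality -/
theorem map_subst {k L M : Type*} [Field k] [Field L] [Algebra k L] [Field M] [Algebra k M]
    {n : ℕ} (d : ℕ) (a : (Fin n →₀ ℕ) → L) (φ : L →+* M)
    (hφ : ∀ u : k, φ (algebraMap k L u) = algebraMap k M u) (f : MvPolynomial (Fin (n + 1)) k) :
    MvPolynomial.map φ (subst d a f) = subst d (fun I => φ (a I)) f := by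
  unfold subst
  rw [aeval_def, aeval_def, MvPolynomial.hom_eval₂]
  have h1 : (MvPolynomial.map φ : MvPolynomial (Fin n) L →+* MvPolynomial (Fin n) M).comp
      (algebraMap k (MvPolynomial (Fin n) L)) = algebraMap k (MvPolynomial (Fin n) M) := by
    ext1 u
    show MvPolynomial.map φ (C (algebraMap k L u)) = C (algebraMap k M u)
    rw [MvPolynomial.map_C, hφ]
  have h2 : (fun i => MvPolynomial.map φ ((Fin.cons (formOf d a) (fun j => X j) :
      Fin (n + 1) → MvPolynomial (Fin n) L) i)) =
      (Fin.cons (formOf d fun I => φ (a I)) (fun j => X j) :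
        Fin (n + 1) → MvPolynomial (Fin n) M) := by
    funext i
    refine Fin.cases ?_ (fun i => ?_) i
    · show MvPolynomial.map φ (formOf d a) = formOf d fun I => φ (a I)
      unfold formOf
      rw [map_sum]
      exact Finset.sum_congr rfl fun I _ => MvPolynomial.map_monomial _ _ _
    · exact MvPolynomial.map_X _ _
  rw [h1]
  congr 1

theorem map_aW {k L M : Type*} [Field k] [Field L] [Algebra k L] [Field M] [Algebra k M]
    {n : ℕ} {ι : Type*} (d : ℕ) (a : (Fin n →₀ ℕ) → L) (φ : L →+* M)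
    (hφ : ∀ u : k, φ (algebraMap k L u) = algebraMap k M u)
    (f : ι → MvPolynomial (Fin (n + 1)) k) (i : ι) (J : Fin n →₀ ℕ) :
    φ (aW d a f i J) = aW d (fun I => φ (a I)) f i J := by
  show φ ((subst d a (f i)).coeff J) = (subst d (fun I => φ (a I)) (f i)).coeff J
  rw [← map_subst d a φ hφ, MvPolynomial.coeff_map]

end Pool.Agent.Lib.MP_44a246_ntQ
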