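import Mathlib
import Pool.Agent.Lib.MP_44a246_ntQ.Q01

/-!
The derivatives of an element which is algebraic over the coordinates of a point, by a weighted
homogeneous equation.
-/

namespace Pool.Agent.Lib.MP_44a246_ntQ

open MvPolynomial

/-- the chain rule -/
theorem der_aeval {k M : Type*} [Field k] [Field M] [Algebra k M] {n : ℕ}
    (D : Derivation ℤ M M) (hD : ∀ u : k, D (algebraMap k M u) = 0) (y : Fin n → M)
    (q : MvPolynomial (Fin n) k) :
    D (aeval y q) = ∑ i, aeval y (pderiv i q) * D (y i) := by
  induction q using MvPolynomial.induction_on with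
  | C u => simp [hD u]
  | add p q hp hq =>
    rw [map_add, map_add, hp, hq, ← Finset.sum_add_distrib]
    refine Finset.sum_congr rfl fun i _ => ?_
    rw [map_add, map_add, add_mul]
  | mul_X p j hp =>
    rw [map_mul, aeval_X, Derivation.leibniz, hp, smul_eq_mul, smul_eq_mul, Finset.mul_sum]
    have h1 : ∀ i, aeval y (pderiv i (p * X j)) * D (y i) =
        (if i = j then aeval y p * D (y i) else 0) + y j * (aeval y (pderiv i p) * D (y i)) := by
      intro i
      rw [Derivation.leibniz, smul_eq_mul, smul_eq_mul, map_add, map_mul, map_mul, aeval_X,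
        pderiv_X]
      by_cases h : i = j
      · subst h
        simp only [if_true, Pi.single_eq_same, map_one]
        ring
      · rw [if_neg h, Pi.single_eq_of_ne (fun h' => h h'.symm), map_zero]
        ring
    rw [Finset.sum_congr rfl fun i _ => h1 i, Finset.sum_add_distrib, Finset.sum_ite_eq']
    simp

/-- the polynomial in one variable -/
private noncomputable def qT {k M : Type*} [Field k] [Field M] [Algebra k M] {n : ℕ}
    (γ : Fin n → M) (q : MvPolynomial (Fin (n + 1)) k) : Polynomial M :=
  aeval (Fin.cons Polynomial.X (fun j => Polynomial.C (γ j)) : Fin (n + 1) → Polynomial M) q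

private theorem qT_eval {k M : Type*} [Field k] [Field M] [Algebra k M] {n : ℕ}
    (γ : Fin n → M) (q : MvPolynomial (Fin (n + 1)) k) (τ : M) :
    (qT γ q).eval τ = aeval (Fin.cons τ γ : Fin (n + 1) → M) q := by
  unfold qT
  have h1 : (aeval (Fin.cons τ γ : Fin (n + 1) → M) : MvPolynomial (Fin (n + 1)) k →ₐ[k] M) =
      ((Polynomial.aeval τ : Polynomial M →ₐ[M] M).restrictScalars k).comp
        (aeval (Fin.cons Polynomial.X (fun j => Polynomial.C (γ j)) :
          Fin (n + 1) → Polynomial M)) := by
    ext i
    refine Fin.cases ?_ (fun i => ?_) i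
    · simp
    · simp
  rw [h1]
  rfl

private theorem qT_derivative {k M : Type*} [Field k] [Field M] [Algebra k M] {n : ℕ}
    (γ : Fin n → M) (q : MvPolynomial (Fin (n + 1)) k) :
    (qT γ q).derivative = qT γ (pderiv 0 q) := by
  unfold qT
  induction q using MvPolynomial.induction_on with
  | C u =>
    simp only [algHom_C, pderiv_C, map_zero]
    rw [IsScalarTower.algebraMap_apply k M (Polynomial M)]
    exact Polynomial.derivative_C
  | add p q hp hq => rw [map_add, map_add, hp, hq, map_add, map_add]
  | mul_X p j hp =>
    rw [map_mul, Polynomial.derivative_mul, hp, aeval_X, Derivation.leibniz, smul_eq_mul,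
      smul_eq_mul, map_add, map_mul, map_mul, aeval_X, pderiv_X]
    refine Fin.cases ?_ (fun j => ?_) j
    · simp
      ring
    · rw [Pi.single_eq_of_ne (Fin.succ_ne_zero j)]
      simp
      ring

/-- **The relation between the derivatives** -/
theorem exists_rel {k M : Type*} [Field k] [CharZero k] [Field M] [Algebra k M] {n d : ℕ}
    {q : MvPolynomial (Fin (n + 1)) k} {e : ℕ} (hq : q.IsWeightedHomogeneous (wt n d) e)
    {γ : Fin n → M} {η : M} (h0 : aeval (Fin.cons η γ : Fin (n + 1) → M) q = 0)
    (hne : ∃ τ : M, aeval (Fin.cons τ γ : Fin (n + 1) → M) q ≠ 0) :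
    ∃ c : Fin n → M, (∀ D : Derivation ℤ M M, (∀ u : k, D (algebraMap k M u) = 0) →
      D η = ∑ j, c j * D (γ j)) ∧ ∑ j, c j * γ j = d * η := by
  have hM : CharZero M := charZero_of_injective_algebraMap (algebraMap k M).injective
  obtain ⟨N, hN⟩ : ∃ N, (qT γ q).natDegree ≤ N := ⟨_, le_rfl⟩
  induction N generalizing q e with
  | zero =>
    exfalso
    obtain ⟨τ, hτ⟩ := hne
    rw [← qT_eval] at h0 hτ
    have h1 := Polynomial.eq_C_of_natDegree_le_zero hN
    rw [h1, Polynomial.eval_C] at h0 hτ
    exact hτ h0
  | succ N ih =>
    have hQ0 : (qT γ q) ≠ 0 := by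
      intro h
      obtain ⟨τ, hτ⟩ := hne
      rw [← qT_eval, h, Polynomial.eval_zero] at hτ
      exact hτ rfl
    have hdeg : 0 < (qT γ q).natDegree := by
      rw [Nat.pos_iff_ne_zero]
      intro h
      have h1 := Polynomial.eq_C_of_natDegree_le_zero h.le
      rw [← qT_eval, h1, Polynomial.eval_C] at h0
      exact hQ0 (by rw [h1, h0, Polynomial.C_0])
    have hder0 : (qT γ q).derivative ≠ 0 := by
      intro h
      have h1 := Polynomial.natDegree_eq_zero_of_derivative_eq_zero h
      omega
    -- the degree of the derivative
    have hp0 : pderiv 0 q ≠ 0 := by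
      intro h
      rw [qT_derivative, h] at hder0
      exact hder0 (by unfold qT; rw [map_zero])
    have hde : d ≤ e := by
      obtain ⟨I, hI⟩ := MvPolynomial.ne_zero_iff.1 hp0
      have h1 : coeff (I + Finsupp.single 0 1) q ≠ 0 := by
        intro h2
        apply hI
        rw [MvPolynomial.coeff_pderiv, h2, zero_mul]
      have h2 := hq h1
      rw [map_add, Finsupp.weight_single] at h2
      simp only [wt, Fin.cons_zero, one_smul] at h2
      omega
    have hq' : (pderiv 0 q).IsWeightedHomogeneous (wt n d) (e - d) := by
      refine hq.pderiv ?_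
      show e - d + d = e
      omega
    by_cases h1 : aeval (Fin.cons η γ : Fin (n + 1) → M) (pderiv 0 q) = 0
    · refine ih hq' h1 ?_ ?_
      · obtain ⟨τ, hτ⟩ : ∃ τ, (qT γ q).derivative.eval τ ≠ 0 := by
          by_contra hcon
          push Not at hcon
          exact hder0 (Polynomial.funext fun τ => by rw [hcon τ, Polynomial.eval_zero])
        refine ⟨τ, ?_⟩
        rw [← qT_eval, ← qT_derivative]
        exact hτ
      · rw [← qT_derivative]
        have := Polynomial.natDegree_derivative_lt (p := qT γ q) (by omega)
        omega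
    · set y : Fin (n + 1) → M := Fin.cons η γ with hy
      refine ⟨fun j => - aeval y (pderiv j.succ q) / aeval y (pderiv 0 q), fun D hD => ?_, ?_⟩
      · have h2 := der_aeval D hD y q
        rw [h0, map_zero, Fin.sum_univ_succ] at h2
        have h3 : D η = - (∑ j : Fin n, aeval y (pderiv j.succ q) * D (γ j)) /
            aeval y (pderiv 0 q) := by
          rw [eq_div_iff h1]
          have h4 : y 0 = η := rfl
          have h5 : ∀ j : Fin n, y j.succ = γ j := fun j => rfl
          rw [h4] at h2
          simp only [h5] at h2
          linear_combination -h2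
        rw [h3, ← Finset.sum_neg_distrib, Finset.sum_div]
        refine Finset.sum_congr rfl fun j _ => ?_
        ring
      · have h2 := hq.sum_weight_X_mul_pderiv
        have h3 := congrArg (aeval y) h2
        rw [map_sum, map_nsmul, h0, smul_zero, Fin.sum_univ_succ] at h3
        simp only [map_nsmul, map_mul, aeval_X, wt, Fin.cons_zero, Fin.cons_succ, one_smul,
          nsmul_eq_mul] at h3
        have h4 : y 0 = η := rfl
        have h5 : ∀ j : Fin n, y j.succ = γ j := fun j => rfl
        rw [h4, map_natCast] at h3
        simp only [h5] at h3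
        have h6 : ∑ j : Fin n, - aeval y (pderiv j.succ q) / aeval y (pderiv 0 q) * γ j =
            - (∑ j : Fin n, γ j * aeval y (pderiv j.succ q)) / aeval y (pderiv 0 q) := by
          rw [← Finset.sum_neg_distrib, Finset.sum_div]
          refine Finset.sum_congr rfl fun j _ => ?_
          ring
        rw [h6, div_eq_iff h1]
        linear_combination -h3

end Pool.Agent.Lib.MP_44a246_ntQ
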