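import Mathlib
import Pool.Agent.Lib.MP_44a246_ntQ.Q01
import Pool.Agent.Lib.MP_44a246_ntU.U02
import Pool.Agent.Lib.MP_44a246_ntU.U04
import Pool.Agent.Lib.MP_44a246_ntU.U23

/-!
Algebraically independent affine coordinates of a point of a weighted projective variety.
-/

namespace Pool.Agent.Lib.MP_44a246_ntQ

open Pool.Agent.Lib.MP_44a246_ntU
open MvPolynomial

/-- **Algebraically independent affine coordinates of a point of a weighted projective
variety.** -/
theorem card_le_of_dimW {k M : Type*} [Field k] [Field M] [Algebra k M] {n d r : ℕ}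
    {ι : Type*} {f : ι → MvPolynomial (Fin (n + 1)) k} {e : ι → ℕ}
    (hf : ∀ i, (f i).IsWeightedHomogeneous (wt n d) (e i))
    (hI : ringKrullDim (MvPolynomial (Fin (n + 1)) k ⧸ Ideal.span (Set.range f)) ≤
      ((r + 1 : ℕ) : ℕ))
    {γ : Fin n → M} {η : M} (hγ : ∀ i, aeval (Fin.cons η γ : Fin (n + 1) → M) (f i) = 0)
    {l : Fin n} (hl : γ l ≠ 0) {p : ℕ}
    {j : Fin p → Fin n} (hj : AlgebraicIndependent k (fun i => γ (j i) / γ l)) : p ≤ r := by
  have h1 := indep_scale hj
  set c : RatFunc M := RatFunc.X * algebraMap M (RatFunc M) (γ l)⁻¹ with hc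
  set γ' : Fin (n + 1) → RatFunc M := Fin.cons (c ^ d * algebraMap M (RatFunc M) η)
    (fun i => c * algebraMap M (RatFunc M) (γ i)) with hγ'
  have h2 : (Fin.cons RatFunc.X
      (fun i => RatFunc.X * algebraMap M (RatFunc M) (γ (j i) / γ l)) : Fin (p + 1) → RatFunc M)
      = fun i => γ' ((Fin.cons l.succ (fun i => (j i).succ) : Fin (p + 1) → Fin (n + 1)) i) := by
    funext i
    refine Fin.cases ?_ (fun i => ?_) i
    · simp only [hγ', Fin.cons_zero, Fin.cons_succ, hc]
      rw [mul_assoc, ← map_mul, inv_mul_cancel₀ hl, map_one, mul_one]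
    · simp only [hγ', Fin.cons_succ, hc, div_eq_mul_inv, map_mul]
      ring
  rw [h2] at h1
  have h3 : ∀ g ∈ Ideal.span (Set.range f), aeval γ' g = 0 := by
    intro g hg
    refine Submodule.span_induction (p := fun g _ => aeval γ' g = 0) ?_ (by simp) ?_ ?_ hg
    · rintro _ ⟨i, rfl⟩
      rw [hγ', aeval_scaleW (hf i)]
      have h6 : aeval (Fin.cons (algebraMap M (RatFunc M) η)
          (fun t => algebraMap M (RatFunc M) (γ t)) : Fin (n + 1) → RatFunc M) (f i) = 0 := by
        have h7 : (Fin.cons (algebraMap M (RatFunc M) η)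
            (fun t => algebraMap M (RatFunc M) (γ t)) : Fin (n + 1) → RatFunc M) =
            fun t => algebraMap M (RatFunc M) ((Fin.cons η γ : Fin (n + 1) → M) t) := by
          funext t
          refine Fin.cases rfl (fun t => rfl) t
        rw [h7]
        change aeval (algebraMap M (RatFunc M) ∘ (Fin.cons η γ : Fin (n + 1) → M)) (f i) = 0
        rw [MvPolynomial.aeval_algebraMap_apply, hγ i, map_zero]
      rw [h6, mul_zero]
    · intro a b _ _ ha hb
      rw [map_add, ha, hb, add_zero]
    · intro a b _ hb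
      rw [smul_eq_mul, map_mul, hb, mul_zero]
  have h6 := card_le_of_dim hI h3 h1
  omega

/-- the same for a normalised point -/
theorem card_le_of_dimW_norm {k M : Type*} [Field k] [Field M] [Algebra k M] {n d r : ℕ}
    {ι : Type*} {f : ι → MvPolynomial (Fin (n + 1)) k} {e : ι → ℕ}
    (hf : ∀ i, (f i).IsWeightedHomogeneous (wt n d) (e i))
    (hI : ringKrullDim (MvPolynomial (Fin (n + 1)) k ⧸ Ideal.span (Set.range f)) ≤
      ((r + 1 : ℕ) : ℕ))
    {γ : Fin n → M} {η : M} (hγ : ∀ i, aeval (Fin.cons η γ : Fin (n + 1) → M) (f i) = 0)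
    {ξ : Fin n → ℕ} (hξ : ∑ j, (ξ j : M) * γ j = 1) {p : ℕ} {j : Fin p → Fin n}
    (hj : AlgebraicIndependent k (fun i => γ (j i))) : p ≤ r := by
  have h1 := indep_scale hj
  set γ' : Fin (n + 1) → RatFunc M := Fin.cons (RatFunc.X ^ d * algebraMap M (RatFunc M) η)
    (fun i => RatFunc.X * algebraMap M (RatFunc M) (γ i)) with hγ'
  have h2 : (Fin.cons RatFunc.X
      (fun i => RatFunc.X * algebraMap M (RatFunc M) (γ (j i))) : Fin (p + 1) → RatFunc M)
      = fun i => aeval γ' ((Fin.cons (∑ l : Fin n, C (ξ l : k) * X l.succ)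
          (fun i => X (j i).succ) : Fin (p + 1) → MvPolynomial (Fin (n + 1)) k) i) := by
    funext i
    refine Fin.cases ?_ (fun i => ?_) i
    · simp only [Fin.cons_zero, map_sum, map_mul, aeval_C, aeval_X, hγ', Fin.cons_succ]
      have h3 : algebraMap M (RatFunc M) (∑ l, (ξ l : M) * γ l) = 1 := by rw [hξ, map_one]
      rw [map_sum] at h3
      calc (RatFunc.X : RatFunc M) = RatFunc.X * 1 := (mul_one _).symm
        _ = RatFunc.X * ∑ l, algebraMap M (RatFunc M) ((ξ l : M) * γ l) := by rw [h3]
        _ = _ := by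
          rw [Finset.mul_sum]
          refine Finset.sum_congr rfl fun l _ => ?_
          rw [map_mul, map_natCast, map_natCast]
          ring
    · simp only [Fin.cons_succ, aeval_X, hγ']
  rw [h2] at h1
  have h3 : ∀ g ∈ Ideal.span (Set.range f), aeval γ' g = 0 := by
    intro g hg
    refine Submodule.span_induction (p := fun g _ => aeval γ' g = 0) ?_ (by simp) ?_ ?_ hg
    · rintro _ ⟨i, rfl⟩
      rw [hγ', aeval_scaleW (hf i)]
      have h6 : aeval (Fin.cons (algebraMap M (RatFunc M) η)
          (fun t => algebraMap M (RatFunc M) (γ t)) : Fin (n + 1) → RatFunc M) (f i) = 0 := by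
        have h7 : (Fin.cons (algebraMap M (RatFunc M) η)
            (fun t => algebraMap M (RatFunc M) (γ t)) : Fin (n + 1) → RatFunc M) =
            fun t => algebraMap M (RatFunc M) ((Fin.cons η γ : Fin (n + 1) → M) t) := by
          funext t
          refine Fin.cases rfl (fun t => rfl) t
        rw [h7]
        change aeval (algebraMap M (RatFunc M) ∘ (Fin.cons η γ : Fin (n + 1) → M)) (f i) = 0
        rw [MvPolynomial.aeval_algebraMap_apply, hγ i, map_zero]
      rw [h6, mul_zero]
    · intro a b _ _ ha hb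
      rw [map_add, ha, hb, add_zero]
    · intro a b _ hb
      rw [smul_eq_mul, map_mul, hb, mul_zero]
  have h6 := card_le_of_dim_gen hI h3 h1
  omega

end Pool.Agent.Lib.MP_44a246_ntQ
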