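import Mathlib
import Pool.Agent.Lib.MP_44a246_ntU.U13
import Pool.Agent.Lib.MP_44a246_ntQ.Q08

/-!
Step E for a generic point of a section `t = H (x)` over an algebraically closed field.
-/

namespace Pool.Agent.Lib.MP_44a246_ntQ

open Pool.Agent.Lib.MP_e52354_nt
open Pool.Agent.Lib.MP_44a246_nt
open Pool.Agent.Lib.MP_44a246_ntL
open Pool.Agent.Lib.MP_44a246_ntS
open Pool.Agent.Lib.MP_44a246_ntG
open Pool.Agent.Lib.MP_44a246_ntU
open Module

universe u

/-- **Step E** over an algebraically closed field -/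
theorem no_certW_closed {κ : Type u} [Field κ] [IsAlgClosed κ] [CharZero κ] {k : Type*} [Field k]
    [CharZero k] [Algebra k κ] {n m d b : ℕ} (hd : m + 2 + 2 * b ≤ d) {ι : Type*} {e : ι → ℕ}
    {f : ι → MvPolynomial (Fin (n + 2)) k}
    (hf : ∀ i, (f i).IsWeightedHomogeneous (wt (n + 1) d) (e i))
    (hdim : ringKrullDim (MvPolynomial (Fin (n + 2)) k ⧸ Ideal.span (Set.range f)) ≤
      ((m + 3 : ℕ) : ℕ))
    {a : (Fin (n + 1) →₀ ℕ) → κ} {x : Fin (n + 1) → κ} {l : Fin (n + 1)} (hl : x l ≠ 0)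
    {j : Fin (m + 1) → Fin (n + 1)}
    (hind : AlgebraicIndependent k (Sum.elim (fun I : {I // I ∈ expo (Fin (n + 1)) d} => a I.1)
      (fun i : Fin (m + 1) => x (j i) / x l)))
    (hne : ∃ i, ∃ τ : κ, MvPolynomial.aeval (Fin.cons τ x : Fin (n + 2) → κ) (f i) ≠ 0) :
    ¬ CertV e (aW d a f) b x := by
  classical
  choose δ hδ using fun i : Fin (m + 1) => exists_der_indepV hind
    (Sum.elim (fun _ => (0 : κ)) fun i' => if i = i' then 1 else 0)
  choose W hW using fun I : Fin (n + 1) →₀ ℕ => exists_der_indepV hind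
    (Sum.elim (fun J => if I = J.1 then (1 : κ) else 0) fun _ => 0)
  refine no_certW_der hd hf hdim δ (fun i => (hδ i).1) (fun i I hI => ?_) W (fun I => (hW I).1)
    (fun I _ J hJ => ?_) (indep_pointV (j := j) hl δ fun i i' => ?_) hne
  · exact (hδ i).2 (Sum.inl ⟨I, hI⟩)
  · exact (hW I).2 (Sum.inl ⟨J, hJ⟩)
  · exact (hδ i).2 (Sum.inr i')

end Pool.Agent.Lib.MP_44a246_ntQ
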