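import Mathlib
import Pool.Agent.Lib.MP_44a246_ntU.U14
import Pool.Agent.Lib.MP_44a246_ntU.U15
import Pool.Agent.Lib.MP_44a246_ntQ.Q09

/-!
Compactness: the coordinates of the points on plane curves of small degree satisfy an equation.
-/

namespace Pool.Agent.Lib.MP_44a246_ntQ

open Pool.Agent.Lib.MP_e52354_nt
open Pool.Agent.Lib.MP_44a246_nt
open Pool.Agent.Lib.MP_44a246_ntL
open Pool.Agent.Lib.MP_44a246_ntS
open Pool.Agent.Lib.MP_44a246_ntG
open Pool.Agent.Lib.MP_44a246_ntU

/-- values of polynomials at germs -/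
theorem germ_aeval {k L Ω : Type*} [Field k] [Field L] [Algebra k L] [Field Ω] [Algebra k Ω]
    (ψ : UP L →+* Ω) (hψ : ∀ u : k, ψ (constHom (algebraMap k L u)) = algebraMap k Ω u) {ι : Type*}
    (z : ℕ → ι → L) (H : MvPolynomial ι k) :
    MvPolynomial.aeval (fun i => ψ (germHom (fun N => z N i))) H =
      ψ (germHom (fun N => MvPolynomial.aeval (z N) H)) := by
  have hhom : (MvPolynomial.aeval (R := k) (fun i => ψ (germHom (fun N => z N i)))).toRingHom =
      ψ.comp (germHom.comp (RingHom.pi (f := fun _ : ℕ => L) fun N =>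
        (MvPolynomial.aeval (R := k) (z N)).toRingHom)) := by
    refine MvPolynomial.ringHom_ext (fun r => ?_) (fun i => ?_)
    · have h4 : (fun _ : ℕ => algebraMap k L r) =
          fun N => MvPolynomial.aeval (R := k) (z N) (MvPolynomial.C r) := by
        funext N
        rw [MvPolynomial.aeval_C]
      change MvPolynomial.aeval (R := k) (fun i => ψ (germHom (fun N => z N i)))
          (MvPolynomial.C r) =
        ψ (germHom (fun N => MvPolynomial.aeval (R := k) (z N) (MvPolynomial.C r)))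
      rw [MvPolynomial.aeval_C, ← h4, ← hψ r, constHom_apply]
    · have h3 : (fun N => z N i) = fun N => MvPolynomial.aeval (R := k) (z N) (MvPolynomial.X i) := by
        funext N
        rw [MvPolynomial.aeval_X]
      show MvPolynomial.aeval (R := k) (fun i => ψ (germHom (fun N => z N i))) (MvPolynomial.X i) =
        ψ (germHom (fun N => MvPolynomial.aeval (R := k) (z N) (MvPolynomial.X i)))
      rw [MvPolynomial.aeval_X, h3]
  exact DFunLike.congr_fun hhom H

/-- the point is not in the locus where all equations are independent of `t` -/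
def NDeg {k L : Type*} [Field k] [Field L] [Algebra k L] {n : ℕ} {ι : Type*}
    (f : ι → MvPolynomial (Fin (n + 1)) k) (x : Fin n → L) : Prop :=
  ∃ i, ∃ τ : L, MvPolynomial.aeval (Fin.cons τ x : Fin (n + 1) → L) (f i) ≠ 0

/-- germs of nondegenerate points are nondegenerate -/
theorem NDeg.germ {k L Ω : Type*} [Field k] [Field L] [Algebra k L] [Field Ω] [Algebra k Ω]
    (ψ : UP L →+* Ω) (hψ : ∀ u : k, ψ (constHom (algebraMap k L u)) = algebraMap k Ω u)
    {n : ℕ} {ι : Type*} [Finite ι] {f : ι → MvPolynomial (Fin (n + 1)) k} {x : ℕ → Fin n → L}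
    (h : ∀ N, NDeg f (x N)) : NDeg f (fun j => ψ (germHom (fun N => x N j))) := by
  choose i τ hτ using h
  by_contra hcon
  have h1 : ∀ i' : ι, ∀ᶠ N in (Filter.hyperfilter ℕ : Filter ℕ),
      MvPolynomial.aeval (Fin.cons (τ N) (x N) : Fin (n + 1) → L) (f i') = 0 := by
    intro i'
    by_contra h2
    apply hcon
    refine ⟨i', ψ (germHom τ), fun h3 => h2 ?_⟩
    have h4 : (Fin.cons (ψ (germHom τ)) (fun j => ψ (germHom (fun N => x N j))) :
        Fin (n + 1) → Ω) =
        fun t => ψ (germHom fun N => (Fin.cons (τ N) (x N) : Fin (n + 1) → L) t) := by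
      funext t
      refine Fin.cases ?_ (fun t => ?_) t
      · rfl
      · rfl
    rw [h4, germ_aeval ψ hψ (fun N => (Fin.cons (τ N) (x N) : Fin (n + 1) → L)), map_eq_zero,
      germHom_eq_zero_iff] at h3
    exact h3
  rw [← Filter.eventually_all] at h1
  obtain ⟨N, hN⟩ := h1.exists
  exact hτ N (hN _)

/-- nondegeneracy does not depend on the scaling -/
theorem NDeg.smul {k L : Type*} [Field k] [Field L] [Algebra k L] {n d : ℕ} {ι : Type*}
    {e : ι → ℕ} {f : ι → MvPolynomial (Fin (n + 1)) k}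
    (hf : ∀ i, (f i).IsWeightedHomogeneous (wt n d) (e i)) {x : Fin n → L} (h : NDeg f x) {c : L}
    (hc : c ≠ 0) : NDeg f (fun j => c * x j) := by
  obtain ⟨i, τ, hτ⟩ := h
  refine ⟨i, c ^ d * τ, ?_⟩
  rw [aeval_scaleW (hf i)]
  exact mul_ne_zero (pow_ne_zero _ hc) hτ

/-- The contradiction in an algebraically closed extension of the ultrapower. -/
private theorem excW_aux {k L : Type*} [Field k] [CharZero k] [Field L] [CharZero L]
    [Algebra k L] {Ω : Type*} [Field Ω] [IsAlgClosed Ω] [CharZero Ω] [Algebra k Ω]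
    (ψ : UP L →+* Ω) (hψ : ∀ u : k, ψ (constHom (algebraMap k L u)) = algebraMap k Ω u)
    {n m d b : ℕ} (hd : m + 2 + 2 * b ≤ d) {ι : Type*} [Finite ι] {e : ι → ℕ}
    {f : ι → MvPolynomial (Fin (n + 2)) k}
    (hf : ∀ i, (f i).IsWeightedHomogeneous (wt (n + 1) d) (e i))
    (hdim : ringKrullDim (MvPolynomial (Fin (n + 2)) k ⧸ Ideal.span (Set.range f)) ≤
      ((m + 3 : ℕ) : ℕ))
    {a : (Fin (n + 1) →₀ ℕ) → L} {l : Fin (n + 1)} {j : Fin (m + 1) → Fin (n + 1)}
    {z : ℕ → Fin (m + 1) → L} {x : ℕ → Fin (n + 1) → L}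
    (hz : ∀ H : MvPolynomial ({I // I ∈ expo (Fin (n + 1)) d} ⊕ Fin (m + 1)) k, H ≠ 0 →
      ∃ N₀, ∀ N ≥ N₀, MvPolynomial.aeval
        (Sum.elim (fun I : {I // I ∈ expo (Fin (n + 1)) d} => a I.1) (z N)) H ≠ 0)
    (hx1 : ∀ N, CertV e (aW d a f) b (x N)) (hxn : ∀ N, NDeg f (x N)) (hx2 : ∀ N, x N l = 1)
    (hx3 : ∀ N i, z N i = x N (j i)) : False := by
  have hcg := certV_map ψ (certV_germ hx1)
  have hx0 : germHom (fun N => x N l) = 1 := by
    have : (fun N => x N l) = 1 := funext fun N => hx2 N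
    rw [this, map_one]
  have hA : (fun (i : ι) (I : Fin (n + 1) →₀ ℕ) => ψ (constHom (aW d a f i I))) =
      aW d (fun I => ψ (constHom (a I))) f := by
    funext i I
    exact map_aW d a (ψ.comp constHom) hψ f i I
  rw [hA] at hcg
  refine no_certW_closed hd hf hdim (l := l) (j := j) ?_ ?_ (NDeg.germ ψ hψ hxn) hcg
  · show ψ (germHom (fun N => x N l)) ≠ 0
    rw [hx0, map_one]
    exact one_ne_zero
  · have h1 := algIndep_germV ψ hψ
      (z := fun N => Sum.elim (fun I : {I // I ∈ expo (Fin (n + 1)) d} => a I.1) (z N)) hz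
    convert h1 using 1
    funext i
    rcases i with i | i
    · rfl
    · show ψ (germHom (fun N => x N (j i))) / ψ (germHom (fun N => x N l)) =
        ψ (germHom (fun N => z N i))
      rw [hx0, map_one, div_one]
      congr 2
      funext N
      exact (hx3 N i).symm

private theorem excW_aux2 {k L : Type*} [Field k] [CharZero k] [Field L] [CharZero L]
    [Algebra k L] {Ω : Type*} [Field Ω] [IsAlgClosed Ω] [CharZero Ω]
    (ψ : UP L →+* Ω)
    {n m d b : ℕ} (hd : m + 2 + 2 * b ≤ d) {ι : Type*} [Finite ι] {e : ι → ℕ}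
    {f : ι → MvPolynomial (Fin (n + 2)) k}
    (hf : ∀ i, (f i).IsWeightedHomogeneous (wt (n + 1) d) (e i))
    (hdim : ringKrullDim (MvPolynomial (Fin (n + 2)) k ⧸ Ideal.span (Set.range f)) ≤
      ((m + 3 : ℕ) : ℕ))
    {a : (Fin (n + 1) →₀ ℕ) → L} {l : Fin (n + 1)} {j : Fin (m + 1) → Fin (n + 1)}
    {z : ℕ → Fin (m + 1) → L} {x : ℕ → Fin (n + 1) → L}
    (hz : ∀ H : MvPolynomial ({I // I ∈ expo (Fin (n + 1)) d} ⊕ Fin (m + 1)) k, H ≠ 0 →
      ∃ N₀, ∀ N ≥ N₀, MvPolynomial.aeval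
        (Sum.elim (fun I : {I // I ∈ expo (Fin (n + 1)) d} => a I.1) (z N)) H ≠ 0)
    (hx1 : ∀ N, CertV e (aW d a f) b (x N)) (hxn : ∀ N, NDeg f (x N)) (hx2 : ∀ N, x N l = 1)
    (hx3 : ∀ N i, z N i = x N (j i)) : False := by
  let _ : Algebra k Ω := (ψ.comp (constHom.comp (algebraMap k L))).toAlgebra
  exact excW_aux ψ (fun u => rfl) hd hf hdim hz hx1 hxn hx2 hx3

/-- **Compactness.** -/
theorem exists_excW {k K L : Type*} [Field k] [CharZero k] [Countable k] [Field K] [CharZero K]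
    [Field L] [CharZero L] [Algebra k K] [Algebra K L] [Algebra k L] [IsScalarTower k K L]
    {n m d b : ℕ} (hd : m + 2 + 2 * b ≤ d) {ι : Type*} [Finite ι] {e : ι → ℕ}
    {f : ι → MvPolynomial (Fin (n + 2)) k}
    (hf : ∀ i, (f i).IsWeightedHomogeneous (wt (n + 1) d) (e i))
    (hdim : ringKrullDim (MvPolynomial (Fin (n + 2)) k ⧸ Ideal.span (Set.range f)) ≤
      ((m + 3 : ℕ) : ℕ))
    {a : (Fin (n + 1) →₀ ℕ) → K}
    (ha : AlgebraicIndependent k (fun I : {I // I ∈ expo (Fin (n + 1)) d} => a I.1))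
    (l : Fin (n + 1)) (j : Fin (m + 1) → Fin (n + 1)) :
    ∃ g : MvPolynomial (Fin (m + 1)) K, g ≠ 0 ∧ ∀ x : Fin (n + 1) → L,
      CertV e (aW d (fun I => algebraMap K L (a I)) f) b x → NDeg f x → x l ≠ 0 →
        MvPolynomial.aeval (fun i => x (j i) / x l) g = 0 := by
  classical
  set S : Set (Fin (m + 1) → L) := {z | ∃ x : Fin (n + 1) → L,
    CertV e (aW d (fun I => algebraMap K L (a I)) f) b x ∧ NDeg f x ∧ x l = 1 ∧
      ∀ i : Fin (m + 1), z i = x (j i)} with hS
  have key : ∃ g : MvPolynomial (Fin (m + 1)) K, g ≠ 0 ∧ ∀ z ∈ S, MvPolynomial.aeval z g = 0 := by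
    by_contra hcon
    push Not at hcon
    obtain ⟨z, hzS, hz⟩ := exists_generic_seqV (L := L) ha (S := S) fun g hg => by
      obtain ⟨z, hz1, hz2⟩ := hcon g hg
      exact ⟨z, hz1, hz2⟩
    choose x hx1 hxn hx2 hx3 using hzS
    have hcU : CharZero (UP L) := charZero_of_injective_ringHom (constHom (L := L)).injective
    have hcΩ : CharZero (AlgebraicClosure (UP L)) :=
      charZero_of_injective_ringHom (algebraMap (UP L) (AlgebraicClosure (UP L))).injective
    exact excW_aux2 (a := fun I => algebraMap K L (a I)) (l := l) (j := j) (z := z) (x := x)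
      (algebraMap (UP L) (AlgebraicClosure (UP L))) hd hf hdim hz hx1 hxn hx2 hx3
  obtain ⟨g, hg0, hg⟩ := key
  refine ⟨g, hg0, fun x hx hxn hx0 => ?_⟩
  exact hg _ ⟨fun k => (x l)⁻¹ * x k, (certV_smul (inv_ne_zero hx0)).2 hx,
    hxn.smul hf (inv_ne_zero hx0), inv_mul_cancel₀ hx0,
    fun i => div_eq_inv_mul _ _⟩

end Pool.Agent.Lib.MP_44a246_ntQ
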