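import Mathlib
import Pool.Agent.Lib.MP_44a246_ntG.G5
import Pool.Agent.Lib.MP_44a246_ntG.G12
import Pool.Agent.Lib.MP_44a246_ntU.U21
import Pool.Agent.Lib.MP_44a246_ntQ.Q02
import Pool.Agent.Lib.MP_44a246_ntQ.Q03
import Pool.Agent.Lib.MP_44a246_ntQ.Q10

/-!
Nondegenerate points in extensions, the rank of the rows of a point and the row of the value of the
form.
-/

namespace Pool.Agent.Lib.MP_44a246_ntQ

open Pool.Agent.Lib.MP_e52354_nt
open Pool.Agent.Lib.MP_44a246_nt
open Pool.Agent.Lib.MP_44a246_ntL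
open Pool.Agent.Lib.MP_44a246_ntS
open Pool.Agent.Lib.MP_44a246_ntG
open Pool.Agent.Lib.MP_44a246_ntU
open WithZero Module

/-- the coefficients `aW` only depend on the coefficients of the form -/
theorem aW_congr {k L : Type*} [Field k] [Field L] [Algebra k L] {n : ℕ} {ι : Type*} {d : ℕ}
    {a a' : (Fin n →₀ ℕ) → L} (h : ∀ I ∈ expo (Fin n) d, a I = a' I)
    (f : ι → MvPolynomial (Fin (n + 1)) k) : aW d a f = aW d a' f := by
  have h1 : formOf d a = formOf d a' := by
    unfold formOf
    exact Finset.sum_congr rfl fun I hI => by rw [h I hI]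
  funext i J
  unfold aW subst
  rw [h1]

/-- the coefficients `aW` are in a subfield if the coefficients of the form and of `f` are -/
theorem aW_mem {k L : Type*} [Field k] [Field L] [Algebra k L] {n : ℕ} {ι : Type*} {d : ℕ}
    {a : (Fin n →₀ ℕ) → L} (B : Subfield L) (hk : ∀ u : k, algebraMap k L u ∈ B)
    (h : ∀ I ∈ expo (Fin n) d, a I ∈ B) (f : ι → MvPolynomial (Fin (n + 1)) k) (i : ι)
    (J : Fin n →₀ ℕ) : aW d a f i J ∈ B := by
  classical
  letI iB : Algebra k B := ((algebraMap k L).codRestrict B hk).toAlgebra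
  obtain ⟨aB, haB⟩ : ∃ aB : (Fin n →₀ ℕ) → B, ∀ I ∈ expo (Fin n) d, (aB I : L) = a I :=
    ⟨fun I => if hI : I ∈ expo (Fin n) d then ⟨a I, h I hI⟩ else 0, fun I hI => by
      simp only [dif_pos hI]⟩
  have h0 : ∀ u : k, B.subtype (algebraMap k B u) = algebraMap k L u := fun u => rfl
  have h1 := map_aW d aB B.subtype h0 f i J
  have h2 : aW d (fun I => B.subtype (aB I)) f = aW d a f := aW_congr (fun I hI => haB I hI) f
  rw [← h2, ← h1]
  exact (aW d aB f i J).2

/-- `f` as a polynomial in `t` at the point `x` -/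
noncomputable def tPoly {k L : Type*} [Field k] [Field L] [Algebra k L] {n : ℕ} (x : Fin n → L)
    (f : MvPolynomial (Fin (n + 1)) k) : Polynomial L :=
  MvPolynomial.aeval (Fin.cons Polynomial.X (fun j => Polynomial.C (x j)) :
    Fin (n + 1) → Polynomial L) f

theorem tPoly_eval {k L : Type*} [Field k] [Field L] [Algebra k L] {n : ℕ} (x : Fin n → L)
    (f : MvPolynomial (Fin (n + 1)) k) (τ : L) :
    (tPoly x f).eval τ = MvPolynomial.aeval (Fin.cons τ x : Fin (n + 1) → L) f := by
  unfold tPoly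
  have h1 : (MvPolynomial.aeval (Fin.cons τ x : Fin (n + 1) → L) :
      MvPolynomial (Fin (n + 1)) k →ₐ[k] L) =
      ((Polynomial.aeval τ : Polynomial L →ₐ[L] L).restrictScalars k).comp
        (MvPolynomial.aeval (Fin.cons Polynomial.X (fun j => Polynomial.C (x j)) :
          Fin (n + 1) → Polynomial L)) := by
    ext i
    refine Fin.cases ?_ (fun i => ?_) i
    · simp
    · simp
  rw [h1]
  rfl

theorem tPoly_map {k L M : Type*} [Field k] [Field L] [Algebra k L] [Field M] [Algebra k M]
    {n : ℕ} (φ : L →+* M) (hφ : ∀ u : k, φ (algebraMap k L u) = algebraMap k M u) (x : Fin n → L)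
    (f : MvPolynomial (Fin (n + 1)) k) : (tPoly x f).map φ = tPoly (fun j => φ (x j)) f := by
  unfold tPoly
  have h1 : (Polynomial.mapRingHom φ).comp (MvPolynomial.aeval (R := k)
      (Fin.cons Polynomial.X (fun j => Polynomial.C (x j)) : Fin (n + 1) → Polynomial L)).toRingHom
      = (MvPolynomial.aeval (R := k) (Fin.cons Polynomial.X (fun j => Polynomial.C (φ (x j))) :
          Fin (n + 1) → Polynomial M)).toRingHom := by
    refine MvPolynomial.ringHom_ext (fun r => ?_) (fun i => ?_)
    · show Polynomial.map φ (MvPolynomial.aeval _ (MvPolynomial.C r)) =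
        MvPolynomial.aeval _ (MvPolynomial.C r)
      rw [MvPolynomial.aeval_C, MvPolynomial.aeval_C,
        IsScalarTower.algebraMap_apply k L (Polynomial L),
        IsScalarTower.algebraMap_apply k M (Polynomial M)]
      show Polynomial.map φ (Polynomial.C (algebraMap k L r)) = Polynomial.C (algebraMap k M r)
      rw [Polynomial.map_C, hφ]
    · show Polynomial.map φ (MvPolynomial.aeval _ (MvPolynomial.X i)) =
        MvPolynomial.aeval _ (MvPolynomial.X i)
      rw [MvPolynomial.aeval_X, MvPolynomial.aeval_X]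
      refine Fin.cases ?_ (fun i => ?_) i
      · simp
      · simp
  exact DFunLike.congr_fun h1 f

theorem nDeg_iff {k L : Type*} [Field k] [Field L] [Infinite L] [Algebra k L] {n : ℕ} {ι : Type*}
    {f : ι → MvPolynomial (Fin (n + 1)) k} {x : Fin n → L} :
    NDeg f x ↔ ∃ i, tPoly x (f i) ≠ 0 := by
  constructor
  · rintro ⟨i, τ, h⟩
    refine ⟨i, fun h0 => h ?_⟩
    rw [← tPoly_eval, h0, Polynomial.eval_zero]
  · rintro ⟨i, h⟩
    by_contra hcon
    apply h
    refine Polynomial.funext fun τ => ?_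
    rw [Polynomial.eval_zero, tPoly_eval]
    by_contra h2
    exact hcon ⟨i, τ, h2⟩

/-- nondegeneracy does not depend on the field -/
theorem nDeg_map {k L M : Type*} [Field k] [Field L] [Algebra k L] [Field M] [Algebra k M]
    [Infinite L] (φ : L →+* M) (hφ : ∀ u : k, φ (algebraMap k L u) = algebraMap k M u)
    {n : ℕ} {ι : Type*} {f : ι → MvPolynomial (Fin (n + 1)) k} {x : Fin n → L} :
    NDeg f (fun j => φ (x j)) ↔ NDeg f x := by
  have : Infinite M := Infinite.of_injective φ φ.injective
  rw [nDeg_iff, nDeg_iff]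
  refine exists_congr fun i => ?_
  rw [← tPoly_map φ hφ, ne_eq, Polynomial.map_eq_zero_iff φ.injective]

/-- nondegeneracy only depends on the polynomials over a larger field -/
theorem nDeg_mapF {k k' L : Type*} [Field k] [Field k'] [Field L] [Algebra k L] [Algebra k k']
    [Algebra k' L] [IsScalarTower k k' L] {n : ℕ} {ι : Type*}
    {f : ι → MvPolynomial (Fin (n + 1)) k} {x : Fin n → L} :
    NDeg (fun i => MvPolynomial.map (algebraMap k k') (f i)) x ↔ NDeg f x := by
  unfold NDeg
  refine exists_congr fun i => exists_congr fun τ => ?_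
  rw [MvPolynomial.aeval_map_algebraMap]

/-- the coefficients `aW` only depend on the polynomials over a larger field -/
theorem aW_mapF {k k' L : Type*} [Field k] [Field k'] [Field L] [Algebra k L] [Algebra k k']
    [Algebra k' L] [IsScalarTower k k' L] {n : ℕ} {ι : Type*} (d : ℕ) (a : (Fin n →₀ ℕ) → L)
    (f : ι → MvPolynomial (Fin (n + 1)) k) :
    aW d a (fun i => MvPolynomial.map (algebraMap k k') (f i)) = aW d a f := by
  funext i J
  unfold aW subst
  have h1 : IsScalarTower k k' (MvPolynomial (Fin n) L) := by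
    refine IsScalarTower.of_algebraMap_eq fun u => ?_
    rw [IsScalarTower.algebraMap_apply k L (MvPolynomial (Fin n) L),
      IsScalarTower.algebraMap_apply k' L (MvPolynomial (Fin n) L),
      ← IsScalarTower.algebraMap_apply k k' L]
  rw [MvPolynomial.aeval_map_algebraMap]

section

variable {κ L : Type*} [Field κ] [Field L] [Algebra κ L] {n d : ℕ}

/-- **The rank of the rows** of a point, if the derivations kill the field of definition. -/
theorem finrank_Ux_leW (X : DatG κ (L := L) n d) {k₀ : Type*} [Field k₀] [CharZero k₀]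
    [Algebra k₀ L]
    (hDk : ∀ I ∈ expo (Fin (n + 1)) d, ∀ u : k₀, X.D I (algebraMap k₀ L u) = 0) {r : ℕ}
    {ι : Type*} {f : ι → MvPolynomial (Fin (n + 2)) k₀} {e : ι → ℕ}
    (hf : ∀ i, (f i).IsWeightedHomogeneous (wt (n + 1) d) (e i))
    (hdim : ringKrullDim (MvPolynomial (Fin (n + 2)) k₀ ⧸ Ideal.span (Set.range f)) ≤
      ((r + 1 : ℕ) : ℕ)) {η : L}
    (hz : ∀ i, MvPolynomial.aeval (Fin.cons η X.x : Fin (n + 2) → L) (f i) = 0) :
    finrank L X.Ux ≤ r :=
  finrank_Ux_le X (k := k₀) hDk fun p j hj => card_le_of_dimW_norm hf hdim hz X.h0 hj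

/-- **The row of the value of the form** is in the space of the rows of the coordinates. -/
theorem row_mem_UxW (X : DatG κ (L := L) n d) {k₀ : Type*} [Field k₀] [CharZero k₀]
    [Algebra k₀ L]
    (hDk : ∀ I ∈ expo (Fin (n + 1)) d, ∀ u : k₀, X.D I (algebraMap k₀ L u) = 0)
    {ι : Type*} {f : ι → MvPolynomial (Fin (n + 2)) k₀} {e : ι → ℕ}
    (hf : ∀ i, (f i).IsWeightedHomogeneous (wt (n + 1) d) (e i)) {η : L}
    (hz : ∀ i, MvPolynomial.aeval (Fin.cons η X.x : Fin (n + 2) → L) (f i) = 0)
    (hne : NDeg f X.x) : X.row η ∈ X.Ux := by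
  obtain ⟨i, hi⟩ := hne
  obtain ⟨c, hc, -⟩ := exists_rel (hf i) (hz i) hi
  have h1 : X.row η = ∑ j, c j • X.row (X.x j) := by
    funext K
    rw [Finset.sum_apply]
    refine hc (X.DK K) fun u => ?_
    rw [X.DK_apply]
    exact Finset.sum_eq_zero fun I hI => by rw [hDk I hI, mul_zero]
  rw [h1]
  exact Submodule.sum_mem _ fun j _ => Submodule.smul_mem _ _ (Submodule.subset_span ⟨j, rfl⟩)

end

end Pool.Agent.Lib.MP_44a246_ntQ
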