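import Mathlib
import Pool.Agent.Lib.MP_44a246_ntG.G20

/-!
Steps A and B, where the bound for the space of the rows is only needed for the sets of coordinates
whose rows span the rows of all coordinates.
-/

namespace Pool.Agent.Lib.MP_44a246_ntQ

open Pool.Agent.Lib.MP_44a246_nt
open Pool.Agent.Lib.MP_44a246_ntL
open Pool.Agent.Lib.MP_44a246_ntS
open Pool.Agent.Lib.MP_44a246_ntX
open Pool.Agent.Lib.MP_44a246_ntW
open Pool.Agent.Lib.MP_44a246_ntG
open Pool.Agent.Lib.MP_e52354_nt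
open WithZero Module Polynomial

variable {κ L : Type*} [Field κ] [IsAlgClosed κ] [CharZero κ] [Field L] [CharZero L]
  [Algebra κ L]

/-- **Steps A and B.** -/
theorem exists_small_curveJ (h : IsFF κ L) {n d T r q s : ℕ} (hT : 1 ≤ T)
    (hT2 : 2000 * T ^ 2 ≤ d) (hq : 2500 * (T * s) ≤ d)
    (hNq : 2 * r + 8500 * T ^ 2 + T * (r + 2 + q) ≤ T * d) (X : DatG κ (L := L) n d)
    {E : ℤ} (hr : finrank L X.U ≤ r)
    (hhtU : ht κ X.U ≤ (r + 1) * height κ X.x + r * E + q * height κ X.x)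
    (hv : ∀ {b : ℕ} {A : L[X][X]}, CrvG X b A → ∀ {J : Finset (Fin (n + 1))} {N : ℕ},
      X.Ux ≤ Submodule.span L (Set.range fun j : ↥J => X.row (X.x j)) →
      finrank L (X.VJ J b A) ≤ N → ht κ (X.VJ J b A ⊔ Submodule.span L {X.row X.v}) ≤
        N * (4 * gh κ A + 3 * X.Δ) + (s - 1) * height κ X.x + E)
    (hE : X.Δ ≤ E) (hbig : 27 * (d : ℤ) ^ 2 * E < height κ X.x) :
    ∃ A : L[X][X], CrvG X (2 * T) A ∧ A.leadingCoeff.Monic ∧
      5 * (gh κ A * ((d / 8 : ℕ) : ℤ) ^ 2) ≤ 16 * ((s : ℤ) * height κ X.x) := by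
  have hN : 2 * r + 8500 * T ^ 2 + T * (r + 2) ≤ T * d := by
    have : T * (r + 2) ≤ T * (r + 2 + q) := Nat.mul_le_mul_left _ (by omega)
    omega
  obtain ⟨n1, n2, n3⟩ := numW1 hT hT2 hN
  have hΔ := X.Δ_nonneg
  have hE0 : 0 ≤ E := hΔ.trans hE
  have hd1 : (8502 : ℤ) ≤ d := by
    have : 8502 ≤ d := by omega
    exact_mod_cast this
  have hTd : (T : ℤ) ≤ d := by
    have : T ≤ d := by omega
    exact_mod_cast this
  have hrd : (r : ℤ) ≤ d := by
    have : r ≤ d := by omega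
    exact_mod_cast this
  have hT1 : (1 : ℤ) ≤ T := by exact_mod_cast hT
  have hd2 : (d : ℤ) ≤ (d : ℤ) ^ 2 := by nlinarith
  have hpos : 0 < height κ X.x :=
    lt_of_le_of_lt (mul_nonneg (by positivity) hE0) hbig
  have hb1 : 27 * (d : ℤ) ^ 2 * X.Δ < height κ X.x := by
    have : 27 * (d : ℤ) ^ 2 * X.Δ ≤ 27 * (d : ℤ) ^ 2 * E :=
      mul_le_mul_of_nonneg_left hE (by positivity)
    linarith
  -- step A
  have hA := stepA h X (T := T) (S := 850 * T) (r := r) (Δ := E) (q := q) hT (by omega) (by omega)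
    (by nlinarith) hr hE0 hhtU
  rcases hA with hA | ⟨a, P, ha2, hP0, hPh, hPe, hPb⟩
  · exfalso
    have h1 : (r : ℤ) * E ≤ 27 * (d : ℤ) ^ 2 * E :=
      mul_le_mul_of_nonneg_right (by nlinarith) hE0
    linarith
  -- the curve
  have hα0 : 0 ≤ polyHeight κ P := polyHeight_nonneg h hP0
  obtain ⟨-, -, hq1⟩ := numG2 hT hT2 hN hq hpos hα0 hPb
  have hbox : Box (2 * T) (deh P) := by
    have h1 := deh_box hPh
    exact ⟨h1.1.trans ha2, fun i => (h1.2 i).trans ha2⟩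
  obtain ⟨A₀, c1, c2, c3, c4, c5, c6, c7, c8⟩ := exists_curve h (deh_ne_zero hPh hP0) hbox
    (y₁ := X.y₁) (y := X.y) (by rw [deh_eval]; exact hPe) (by omega) (by
      rw [gh_deh hPh, X.height_y₁]
      have : (0 : ℤ) < T := by linarith
      rcases hα0.eq_or_lt with h0 | h0
      · rw [← h0, mul_zero]
        exact hpos
      · push_cast at hq1 ⊢
        nlinarith)
  have hCrv : CrvG X (2 * T) A₀ := ⟨c1, c3, c4, c5, c6, c8⟩
  obtain ⟨A, hCA, hgh, hmon⟩ := exists_monic h hCrv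
  refine ⟨A, hCA, hmon, ?_⟩
  have hghle : gh κ A ≤ polyHeight κ P := by
    rw [hgh, ← gh_deh hPh]
    exact c7
  have hgA0 : 0 ≤ gh κ A := gh_nonneg h hCA.irr.ne_zero
  have hgb : 3 * (gh κ A * ((850 * T : ℕ) : ℤ)) ≤ 8 * height κ X.x := by
    have : gh κ A * ((850 * T : ℕ) : ℤ) ≤ polyHeight κ P * ((850 * T : ℕ) : ℤ) :=
      mul_le_mul_of_nonneg_right hghle (by positivity)
    linarith
  obtain ⟨hη, hbez, hsp⟩ := numG2 hT hT2 hN hq hpos hgA0 hgb
  -- step B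
  obtain ⟨J, hJc, hJ⟩ := exists_J X
  have hJr : J.card ≤ r := by
    rw [hJc]
    exact (Submodule.finrank_mono le_sup_left).trans hr
  have hspan : 9 * ((2 * T : ℕ) : ℤ) * gh κ A + 3 * ((2 * T : ℕ) : ℤ) * X.Δ < height κ X.x := by
    have h1 : 3 * ((2 * T : ℕ) : ℤ) * X.Δ * 4 ≤ 27 * (d : ℤ) ^ 2 * X.Δ := by
      have : 3 * ((2 * T : ℕ) : ℤ) * 4 ≤ 27 * (d : ℤ) ^ 2 := by push_cast; nlinarith
      calc 3 * ((2 * T : ℕ) : ℤ) * X.Δ * 4 = 3 * ((2 * T : ℕ) : ℤ) * 4 * X.Δ := by ring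
        _ ≤ _ := mul_le_mul_of_nonneg_right this hΔ
    linarith
  have hVJ := finrank_VJ_span h X J hCA hmon hspan
  have hVJN : finrank L (X.VJ J (2 * T) A) ≤ NN r T := by
    refine hVJ.trans ?_
    unfold NN
    have : 2 * (2 * T) * J.card ≤ 2 * (2 * T) * (r + 1) := Nat.mul_le_mul_left _ (by omega)
    omega
  have hfin : finrank L ↥(X.VJ J (2 * T) A ⊔ Submodule.span L {X.row X.v}) ≤ NN r T := by
    have h1 := Submodule.finrank_add_le_finrank_add_finrank (X.VJ J (2 * T) A)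
      (Submodule.span L {X.row X.v})
    have h2 : finrank L ↥(Submodule.span L ({X.row X.v} : Set (M3 d → L))) ≤ 1 := by
      have h3 := finrank_span_le_card (R := L) ({X.row X.v} : Set (M3 d → L))
      simpa using h3
    have h4 : 2 * (2 * T) * J.card ≤ 2 * (2 * T) * r := Nat.mul_le_mul_left _ hJr
    have h5 : NN r T = (2 * (2 * T) + 1) * (2 * T + 1) ^ 2 + (2 * (2 * T) * r + 2 * (2 * T)) + 1 := by
      unfold NN
      ring
    omega
  have hTdd : (T : ℤ) * d ≤ (d : ℤ) ^ 2 := by nlinarith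
  have hNN : 4 * ((NN r T : ℕ) : ℤ) * E + E ≤ height κ X.x := by
    have h1 : 10 * ((NN r T : ℕ) : ℤ) ≤ 41 * (T * d) := by exact_mod_cast n2
    have h2 : (4 * ((NN r T : ℕ) : ℤ) + 1) * E ≤ 27 * (d : ℤ) ^ 2 * E :=
      mul_le_mul_of_nonneg_right (by nlinarith) hE0
    linarith
  have hN1 : (1 : ℤ) ≤ ((NN r T : ℕ) : ℤ) := by
    have : 1 ≤ NN r T := by unfold NN; omega
    exact_mod_cast this
  have hht : ht κ (X.VJ J (2 * T) A ⊔ Submodule.span L {X.row X.v}) ≤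
      (s : ℤ) * height κ X.x + 4 * ((NN r T : ℕ) : ℤ) * gh κ A := by
    have h1 := hv hCA hJ hVJN
    have h4 : ((NN r T : ℕ) : ℤ) * X.Δ ≤ ((NN r T : ℕ) : ℤ) * E :=
      mul_le_mul_of_nonneg_left hE (by positivity)
    have h5 : 1 * E ≤ ((NN r T : ℕ) : ℤ) * E := mul_le_mul_of_nonneg_right hN1 hE0
    nlinarith
  have hs1 : 1 ≤ d / 8 := by omega
  obtain ⟨a, A', ha, hA'0, hA'h, hA'e, hA'b⟩ :=
    stepB_gen h X (X.xi_mem_VJ hCA hJ) hfin hht n3 (by omega) hs1 hpos hη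
  exact stepB_fin h X hCA n3 hs1 le_rfl hbez ha hA'0 hA'h hA'e hA'b

end Pool.Agent.Lib.MP_44a246_ntQ
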