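import Mathlib
import Pool.Agent.Lib.MP_44a246_ntZ.Z11
import Pool.Agent.Lib.MP_44a246_ntQ.Q04
import Pool.Agent.Lib.MP_44a246_ntQ.Q05

/-!
The height theorem if the derivatives of the value of the form are combinations of the derivatives
of the coordinates.
-/

namespace Pool.Agent.Lib.MP_44a246_ntQ

open Pool.Agent.Lib.MP_44a246_nt
open Pool.Agent.Lib.MP_44a246_ntL
open Pool.Agent.Lib.MP_44a246_ntS
open Pool.Agent.Lib.MP_44a246_ntX
open Pool.Agent.Lib.MP_44a246_ntW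
open Pool.Agent.Lib.MP_44a246_ntG
open Pool.Agent.Lib.MP_44a246_ntZ
open Pool.Agent.Lib.MP_e52354_nt
open WithZero Module Polynomial

/-- **The height theorem** for a point with `row v` in the space of the rows, on a variety given by forms (any number) whose
degrees are small or at most `M`. -/
theorem height_W' {κ L : Type*} [Field κ] [IsAlgClosed κ] [CharZero κ] [Field L] [CharZero L]
    [Algebra κ L] (h : IsFF κ L) {n r d T q M : ℕ} (hT : 1 ≤ T) (hT2 : 2000 * T ^ 2 ≤ d)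
    (hq : 2500 * (T * (q + 3)) ≤ d)
    (hN : 2 * r + 8500 * T ^ 2 + T * (r + 2 + q) ≤ T * d) (X : DatG κ (L := L) n d)
    (hv : X.row X.v ∈ X.Ux) (hr : finrank L X.Ux ≤ r) (hR : X.R ≤ q * height κ X.x)
    {τ : Place κ L → ℕ} (hτ : (Function.support τ).Finite)
    {ι : Type*} {e : ι → ℕ} {a : ι → (Fin (n + 1) →₀ ℕ) → L}
    (he : ∀ i, 2000 * ((q + 3) * (T * e i)) ≤ d ^ 2 ∨ e i ≤ M)
    (ha : ∀ i, ∀ I ∈ expo (Fin (n + 1)) (e i), ∀ w : Place κ L, w.1 (a i I) ≤ exp (τ w : ℤ))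
    (hz : ∀ i, Fval (e i) (a i) X.x = 0) :
    (d : ℤ) ^ 2 * height κ X.x ≤
        (d : ℤ) ^ 2 * ((27 * d ^ 2 + 8 * T * M) * (X.Δ + ∑ᶠ w, (τ w : ℤ))) +
          18 * T * M * X.R ∨
      CertV e a (2 * T) X.x := by
  have hΔ := X.Δ_nonneg
  have hR0 := X.R_nonneg
  have hΘ : 0 ≤ ∑ᶠ w, (τ w : ℤ) := finsum_nonneg fun w => Int.natCast_nonneg _
  rcases le_or_gt ((d : ℤ) ^ 2 * height κ X.x)
    ((d : ℤ) ^ 2 * ((27 * d ^ 2 + 8 * T * M) * (X.Δ + ∑ᶠ w, (τ w : ℤ))) + 18 * T * M * X.R)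
    with hle | hbig
  · exact Or.inl hle
  right
  generalize hΘe : ∑ᶠ w, (τ w : ℤ) = Θ at hΘ hbig
  have hN' : 2 * r + 8500 * T ^ 2 + T * (r + 2) ≤ T * d := by
    have : T * (r + 2) ≤ T * (r + 2 + q) := Nat.mul_le_mul_left _ (by omega)
    omega
  have hd1 : 1 ≤ d := by
    have h1 : 1 ≤ T ^ 2 := Nat.one_le_pow _ _ hT
    omega
  have hd1' : (1 : ℤ) ≤ d := by exact_mod_cast hd1
  have hd2' : (0 : ℤ) < (d : ℤ) ^ 2 := by positivity
  have hM0 : (0 : ℤ) ≤ 8 * T * M := by positivity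
  have hM1 : (0 : ℤ) ≤ 18 * T * M * X.R := mul_nonneg (by positivity) hR0
  have hbig'' : (27 * (d : ℤ) ^ 2 + 8 * T * M) * (X.Δ + Θ) < height κ X.x := by
    refine lt_of_mul_lt_mul_left ?_ hd2'.le
    linarith
  have hpos : 0 < height κ X.x :=
    lt_of_le_of_lt (mul_nonneg (by positivity) (add_nonneg hΔ hΘ)) hbig''
  have hbig3 : 27 * (d : ℤ) ^ 2 * (X.Δ + Θ) < height κ X.x := by
    have h2 : 0 ≤ (8 * T * M : ℤ) * (X.Δ + Θ) := mul_nonneg hM0 (add_nonneg hΔ hΘ)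
    linarith
  have hbig' : 27 * (d : ℤ) ^ 2 * X.Δ < height κ X.x := by
    have h1 : 0 ≤ 27 * (d : ℤ) ^ 2 * Θ := mul_nonneg (by positivity) hΘ
    linarith
  have hU : X.U = X.Ux := by
    unfold DatG.U
    rw [sup_eq_left, Submodule.span_singleton_le_iff_mem]
    exact hv
  have hvVJ : ∀ {b : ℕ} {A : L[X][X]}, CrvG X b A → ∀ {J : Finset (Fin (n + 1))} {N : ℕ},
      X.Ux ≤ Submodule.span L (Set.range fun j : ↥J => X.row (X.x j)) →
      finrank L (X.VJ J b A) ≤ N → ht κ (X.VJ J b A ⊔ Submodule.span L {X.row X.v}) ≤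
        N * (4 * gh κ A + 3 * X.Δ) + (((q + 3 : ℕ) : ℤ) - 1) * height κ X.x + X.Δ := by
    intro b A hA J N hJ hVN
    have hVx : X.row X.v ∈ X.VJ J b A := by
      refine Submodule.span_le.mpr ?_ (hJ hv)
      rintro _ ⟨⟨k, hk⟩, rfl⟩
      exact X.row_x_mem hA hk
    rw [sup_eq_left.2 ((Submodule.span_singleton_le_iff_mem _ _).2 hVx)]
    have h1 := ht_VJ_le X hA h hVN
    push_cast
    linarith
  obtain ⟨A, hCA, hmon, hα⟩ := exists_small_curveJ h hT hT2 hq hN X (E := X.Δ)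
    (by rw [hU]; exact hr) (by
      rw [hU]
      have := X.ht_Ux h hr
      linarith) hvVJ le_rfl hbig'
  have hα0 : 0 ≤ gh κ A := gh_nonneg h hCA.irr.ne_zero
  have hαΔ := gh_le_B2J h hT hT2 hN' (by omega : 3 ≤ q + 3) hq X hCA hmon hr (E := X.Δ)
    (fun {J N} hJ hJN => hvVJ hCA hJ hJN) le_rfl hbig' hα
  have hT0 : (1 : ℤ) ≤ T := by exact_mod_cast hT
  have hTd : 2 * (T : ℤ) ≤ 27 * (d : ℤ) ^ 2 := by
    have h1 : 2500 * (T * (q + 3)) ≤ d := hq
    have h2 : T ≤ T * (q + 3) := Nat.le_mul_of_pos_right _ (by omega)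
    have h3 : (T : ℤ) ≤ d := by exact_mod_cast (by omega : T ≤ d)
    nlinarith
  refine stepC X hCA h hτ ha hz (fun i => ?_) ?_
  · rw [hΘe]
    rcases he i with hei | hei
    · exact numG3 (by omega) hT hT2 hN' hei hpos hΔ hΘ hα0 hα hbig3
    · have hei' : ((e i : ℕ) : ℤ) ≤ M := by exact_mod_cast hei
      have h1 := numZ2 hd1' hT0 hTd (Int.natCast_nonneg (e i)) hei' hΔ hΘ hR0 hαΔ hbig
      push_cast
      exact h1
  · have h1 := numG3 (e := 1) (s₀ := q + 3) (by omega) hT hT2 hN' (by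
      rw [mul_one]
      have h2 : 2000 * ((q + 3) * T) ≤ d := by
        rw [mul_comm (q + 3) T]
        omega
      calc 2000 * ((q + 3) * T) ≤ d := h2
        _ = d * 1 := (mul_one d).symm
        _ ≤ d * d := Nat.mul_le_mul_left _ hd1
        _ = d ^ 2 := (sq d).symm) hpos hΔ le_rfl hα0 hα
      (by rw [add_zero]; exact hbig')
    push_cast at h1 ⊢
    linarith

/-- **The height theorem**, with the alternative of large ramification. -/
theorem height_W {κ L : Type*} [Field κ] [IsAlgClosed κ] [CharZero κ] [Field L] [CharZero L]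
    [Algebra κ L] (h : IsFF κ L) {n r d T q M : ℕ} (hT : 1 ≤ T) (hT2 : 2000 * T ^ 2 ≤ d)
    (hq : 2500 * (T * (q + 3)) ≤ d)
    (hN : 2 * r + 8500 * T ^ 2 + T * (r + 2 + q) ≤ T * d) (X : DatG κ (L := L) n d)
    (hv : X.row X.v ∈ X.Ux) (hr : finrank L X.Ux ≤ r)
    {τ : Place κ L → ℕ} (hτ : (Function.support τ).Finite)
    {ι : Type*} {e : ι → ℕ} {a : ι → (Fin (n + 1) →₀ ℕ) → L}
    (he : ∀ i, 2000 * ((q + 3) * (T * e i)) ≤ d ^ 2 ∨ e i ≤ M)
    (ha : ∀ i, ∀ I ∈ expo (Fin (n + 1)) (e i), ∀ w : Place κ L, w.1 (a i I) ≤ exp (τ w : ℤ))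
    (hz : ∀ i, Fval (e i) (a i) X.x = 0) :
    q * height κ X.x ≤ X.R ∨ (d : ℤ) ^ 2 * height κ X.x ≤
        (d : ℤ) ^ 2 * ((27 * d ^ 2 + 8 * T * M) * (X.Δ + ∑ᶠ w, (τ w : ℤ))) +
          18 * T * M * X.R ∨
      CertV e a (2 * T) X.x := by
  rcases le_or_gt (q * height κ X.x) X.R with hR | hR
  · exact Or.inl hR
  · exact Or.inr (height_W' h hT hT2 hq hN X hv hr hR.le hτ he ha hz)

end Pool.Agent.Lib.MP_44a246_ntQ
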