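import Mathlib
import Pool.Agent.Lib.MP_44a246_ntQ.Q12
import Pool.Agent.Lib.MP_44a246_ntQ.Q13
import Pool.Agent.Lib.MP_44a246_ntU.U25
import Pool.Agent.Lib.MP_44a246_ntX.XV

/-!
The theorem for generic hypersurface sections of subvarieties of `P (d, 1, ..., 1)` over a function
field.
-/

namespace Pool.Agent.Lib.MP_44a246_ntQ

open Pool.Agent.Lib.MP_44a246_nt
open Pool.Agent.Lib.MP_44a246_ntL
open Pool.Agent.Lib.MP_44a246_ntS
open Pool.Agent.Lib.MP_44a246_ntX
open Pool.Agent.Lib.MP_44a246_ntG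
open Pool.Agent.Lib.MP_44a246_ntU
open Pool.Agent.Lib.MP_e52354_nt
open MvPolynomial Module

universe u v w

/-- **The slope theorem for sections of weighted projective varieties.** -/
theorem slope_mainW {κ : Type u} {K : Type v} [Field κ] [IsAlgClosed κ] [CharZero κ] [Field K]
    [CharZero K] [Algebra κ K] (htr : Cardinal.aleph0 ≤ Algebra.trdeg ℚ κ)
    {t : K} (ht : Transcendental κ t) [FiniteDimensional (IntermediateField.adjoin κ {t}) K]
    {k : Type*} [Field k] [CharZero k] [Algebra k K] (hk : Algebra.trdeg ℚ k < Cardinal.aleph0)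
    {n r s d M : ℕ} {ι : Type*} [Finite ι] {e : ι → ℕ}
    {f : ι → MvPolynomial (Fin (n + 2)) k}
    (hf : ∀ i, (f i).IsWeightedHomogeneous (Fin.cons d fun _ => 1) (e i)) (hr : 2 ≤ r)
    (hdim : ringKrullDim (MvPolynomial (Fin (n + 2)) k ⧸ Ideal.span (Set.range f)) ≤
      ((r + 1 : ℕ) : WithBot ℕ∞))
    (hd : r + 20001 * (Nat.sqrt r + s + 4) ≤ d)
    (he : ∀ i, 2000 * ((s + 3) * ((Nat.sqrt r + 1) * e i)) ≤ d ^ 2 ∨ e i ≤ M)
    (H : MvPolynomial (Fin (n + 1)) K) (hH : H.IsHomogeneous d)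
    (hgen : AlgebraicIndependent k
      (fun I : {I : Fin (n + 1) →₀ ℕ // I.degree = d} => H.coeff I.1)) :
    ∃ (l : ℕ) (G : Fin l → MvPolynomial (Fin (n + 1)) K), (∀ i, ∃ E, (G i).IsHomogeneous E) ∧
      ringKrullDim (MvPolynomial (Fin (n + 1)) K ⧸ Ideal.span (Set.range G)) <
        (r : WithBot ℕ∞) ∧
      ∃ C : ℕ, ∀ (L : Type w) [Field L] [Algebra K L] [FiniteDimensional K L] [Algebra κ L]
        [IsScalarTower κ K L] [Algebra k L] [IsScalarTower k K L] (x : Fin (n + 1) → L), x ≠ 0 →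
        (∀ i, aeval (Fin.cons (aeval x H) x : Fin (n + 2) → L) (f i) = 0) → NDeg f x →
        ((s * height κ x ≤ ramDeg κ L K ∨ (d : ℤ) ^ 2 * height κ x ≤
            C * finrank K L + 18 * (Nat.sqrt r + 1) * M * ramDeg κ L K) ∧
          (pointField K x = ⊤ → 2 * finrank K L ≤ s + 1 →
            36 * (Nat.sqrt r + 1) * M * (finrank K L - 1) < d ^ 2 →
            height κ x ≤ C * finrank K L)) ∨
          (∀ i, aeval x (G i) = 0) ∧
            CertV e (aW d (fun I => algebraMap K L (H.coeff I)) f) (2 * (Nat.sqrt r + 1))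
              x := by
  obtain ⟨T, hT, hTn, hT2, hr', hN⟩ := exists_T hd
  obtain ⟨m, rfl⟩ : ∃ m, r = m + 2 := ⟨r - 2, by omega⟩
  have hd2 : m + 2 + 2 * (2 * (Nat.sqrt (m + 2) + 1)) ≤ d := by linarith
  have ha : AlgebraicIndependent k (fun I : ↥(expo (Fin (n + 1)) d) => H.coeff I.1) := by
    have h1 : (fun I : ↥(expo (Fin (n + 1)) d) => H.coeff I.1) =
        (fun I : {I : Fin (n + 1) →₀ ℕ // I.degree = d} => H.coeff I.1) ∘
        (fun I : ↥(expo (Fin (n + 1)) d) => ⟨I.1, mem_expo.mp I.2⟩) := rfl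
    rw [h1]
    apply hgen.comp
    rintro ⟨I, h⟩ ⟨I', h'⟩ heq
    simp only [Subtype.mk.injEq] at heq
    subst heq
    rfl
  have hf' : ∀ i, (f i).IsWeightedHomogeneous (wt (n + 1) d) (e i) := hf
  have hK : IsFF κ K := ⟨t, ht, inferInstance⟩
  have hkc : Countable k := countable_of_trdeg hk
  obtain ⟨l, G, hG1, hG2, hG3⟩ := exists_excFormsW.{v, w} hd2 hf' hdim ha
  obtain ⟨C, hC⟩ := heightW_base.{u, v, w} (κ := κ) (K := K) hK htr hk hT hT2 hr' hN
    (e := e) (M := M) (fun i => (he i).imp (fun h => by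
      refine le_trans (Nat.mul_le_mul_left _ (Nat.mul_le_mul_left _ ?_)) h
      exact Nat.mul_le_mul_right _ hTn) id) hf' hdim (a := fun I => H.coeff I) ha
  refine ⟨l, G, hG1, ?_, C, ?_⟩
  · refine lt_of_le_of_lt hG2 ?_
    exact_mod_cast (by omega : m + 1 < m + 2)
  intro L _ _ _ _ _ _ _ x hx hfx hne
  have hfx' : ∀ i, Fval (e i) (aW d (fun I => algebraMap K L (H.coeff I)) f i) x = 0 := by
    intro i
    have h1 := hfx i
    rw [Pool.Agent.Lib.MP_44a246_ntU.aeval_eq_Fval hH] at h1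
    rw [Fval_aW' hf']
    exact h1
  have hL : IsFF κ L := hK.of_finite
  have hHt : 0 ≤ height κ x := hL.height_nonneg hx
  have hRam : (0 : ℤ) ≤ ramDeg κ L K := Int.natCast_nonneg _
  have hfr : 1 ≤ finrank K L := Module.finrank_pos
  have hd1 : (1 : ℤ) ≤ d := by
    have : 1 ≤ d := by linarith
    exact_mod_cast this
  have hTZ : (T : ℤ) ≤ Nat.sqrt (m + 2) + 1 := by exact_mod_cast hTn
  have key := hC L x hx hfx' hne
  rcases key with h | h | h
  · left
    refine ⟨Or.inl h, fun hgx h2 _ => ?_⟩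
    have h3 : (ramDeg κ L K : ℤ) ≤ 2 * ((Module.finrank K L : ℤ) - 1) * height κ x := by
      refine hK.ind ?_
      intro _ _ _ _ _ _ _ _ _
      exact (ram_point (κ := κ) (K := K) x hx hgx).1
    have h4 : 2 * (Module.finrank K L : ℤ) ≤ s + 1 := by exact_mod_cast h2
    have h5 : height κ x ≤ 0 := by nlinarith
    exact h5.trans (by positivity)
  · left
    have h' : (d : ℤ) ^ 2 * height κ x ≤
        C * finrank K L + 18 * (Nat.sqrt (m + 2) + 1) * M * ramDeg κ L K := by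
      refine h.trans ?_
      have h6 : 18 * (T : ℤ) * M ≤ 18 * (Nat.sqrt (m + 2) + 1) * M :=
        mul_le_mul_of_nonneg_right (by linarith) (Int.natCast_nonneg _)
      have h7 := mul_le_mul_of_nonneg_right h6 hRam
      linarith
    refine ⟨Or.inr h', fun hgx h2 h8 => ?_⟩
    have h3 : (ramDeg κ L K : ℤ) ≤ 2 * ((Module.finrank K L : ℤ) - 1) * height κ x := by
      refine hK.ind ?_
      intro _ _ _ _ _ _ _ _ _
      exact (ram_point (κ := κ) (K := K) x hx hgx).1
    have h9 : 36 * ((Nat.sqrt (m + 2) : ℤ) + 1) * M * ((finrank K L : ℤ) - 1) + 1 ≤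
        (d : ℤ) ^ 2 := by
      have h10 : 36 * (Nat.sqrt (m + 2) + 1) * M * (finrank K L - 1) + 1 ≤ d ^ 2 := h8
      have h11 : ((finrank K L - 1 : ℕ) : ℤ) = (finrank K L : ℤ) - 1 := by
        rw [Nat.cast_sub hfr, Nat.cast_one]
      rw [← h11]
      exact_mod_cast h10
    have hc : (0 : ℤ) ≤ 18 * (Nat.sqrt (m + 2) + 1) * M := by positivity
    have h12 := mul_le_mul_of_nonneg_left h3 hc
    have h13 := mul_le_mul_of_nonneg_right h9 hHt
    nlinarith
  · right
    have h1 : CertV e (aW d (fun I => algebraMap K L (H.coeff I)) f)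
        (2 * (Nat.sqrt (m + 2) + 1)) x := certV_mono (by omega) h
    exact ⟨hG3 L x h1 hne, h1⟩

end Pool.Agent.Lib.MP_44a246_ntQ
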